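import Pool.Agent.MWKP.StmtsN
import Pool.Agent.Helper50_MWK.NPB

/-! Row NPN of squad MWKP (MP_23468a_al), twin of row NPB of MWK (helper50). -/

set_option autoImplicit false

namespace Pool.Agent.MWKP.H75

open Pool.Agent.MWKP Pool.Agent.MWK Pool.Agent.Helper14_MV Pool.Agent.Helper2_MV

/-- ROW NPN -/
theorem npn (hctn : CtnStmt) (hntn : NtnStmt) : NpnStmt := by
  intro n β hG hPA w w' hww hPB
  obtain ⟨hc, ⟨k, hk, hf2⟩, ⟨j, hj, hf0⟩⟩ := hPB
  have hcon : ∀ c, c ∈ w ↔ c ∈ w' := fun c => (hctn n β hG w w' hww c).1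
  have hc' : ∀ c ∈ w', c = 0 ∨ c = 1 ∨ c = 2 := fun c h => hc c ((hcon c).2 h)
  have h2 := hww.filter (fun c => decide (c ≠ 2))
  rw [hf2] at h2
  obtain ⟨k', hk', hk2⟩ := hntn n β hG 0 1 (by decide) k _ hk h2
  have h0 := hww.filter (fun c => decide (c ≠ 0))
  rw [hf0] at h0
  have h3 := h0.sub Pool.Agent.MWK.H50.g21
  have hl : (List.replicate j 2 ++ [1]).flatMap Pool.Agent.MWK.H50.g21 =
      List.replicate j 0 ++ List.replicate 2 1 := by
    rw [List.flatMap_append, Pool.Agent.MWK.H50.flatMap_two]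
    rfl
  have h4 := hPA _ _ h3 ⟨j, 2, hj, le_refl _, hl⟩
  have hcount : (w'.filter (fun c => decide (c ≠ 0))).count 1 = 1 := by
    have e1 : (w'.filter (fun c => decide (c ≠ 0))).count 1 = w'.count 1 :=
      List.count_filter (by decide)
    have e2 : (w'.filter (fun c => decide (c ≠ 2))).count 1 = w'.count 1 :=
      List.count_filter (by decide)
    rw [e1, ← e2, hk2]
    simp [List.count_replicate]
  have hlet : ∀ c ∈ w'.filter (fun c => decide (c ≠ 0)), c = 1 ∨ c = 2 := by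
    intro c hcm
    rw [List.mem_filter] at hcm
    obtain ⟨hm1, hm2⟩ := hcm
    have hm3 : c ≠ 0 := by simpa using hm2
    rcases hc' c hm1 with h | h | h
    · exact absurd h hm3
    · exact Or.inl h
    · exact Or.inr h
  exact ⟨hc', ⟨k', hk', hk2⟩, Pool.Agent.MWK.H50.shape _ hcount hlet h4⟩

end Pool.Agent.MWKP.H75
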